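import Pool.Agent.Lib.MP_6d445e_gt.W.Iface4

/-!
# REFW: closure points of uncountable cofinality
-/

universe u v w

open Cardinal Filter

namespace Pool.Agent.Lib.MP_6d445e_gt.H50

open Pool.Agent.Lib.MP_100a6c_lc
open Pool.Agent.Lib.MP_e6fef2_lc

theorem refw (hidw : IdwStatement.{u}) : RefwStatement.{u} := by
  intro κ I _ _ hI A _ f ι M B _ e hM K hK i0
  obtain ⟨hbd, -, -, -, hclo⟩ := hidw.2 κ I hI
  -- the stage of a name
  have hst : ∀ R : ℕ → ℕ → B, ∃ i, ∀ j, i ≤ j → ∃ R' : ℕ → ℕ → A j, ∀ n k, R n k = e j (R' n k) := by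
    intro R
    have h1 : ∀ p : ℕ × ℕ, ∃ i, ∃ a : A i, R p.1 p.2 = e i a := fun p => hM.old _
    choose s a hs using h1
    obtain ⟨i, hi⟩ := hbd (Set.range s) (by
      refine lt_of_le_of_lt ?_ hI.unc
      exact (Set.countable_range s).le_aleph0)
    refine ⟨i, fun j hj => ⟨fun n k => f (s (n, k)) j (a (n, k)), fun n k => ?_⟩⟩
    have h2 : s (n, k) ≤ j := (hi _ ⟨_, rfl⟩).le.trans hj
    rw [hM.top.comp _ _ h2]
    exact hs (n, k)
  choose st hst using hst
  have hsize : ∀ j : I, ∃ i, j < i ∧ ∀ F : ℕ → ℕ → A j, (∀ n k, F n k ∈ M j) →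
      ∀ R ∈ K (fun n k => e j (F n k)), st R < i := by
    intro j
    have h1 : #(ℕ → ℕ → M j) < κ := by
      have h2 : #(ℕ → ℕ → M j) = (#(M j) ^ ℵ₀) ^ ℵ₀ := by simp
      rw [h2, ← Cardinal.power_mul, Cardinal.aleph0_mul_aleph0]
      exact hI.pow _ (hM.good.Mcard j)
    let Z : Set I := ⋃ F : ℕ → ℕ → M j, st '' K (fun n k => e j (F n k).1)
    have hZ : #Z < κ := by
      rw [Cardinal.card_iUnion_lt_iff_forall_of_isRegular hI.reg h1]
      intro F
      refine lt_of_le_of_lt ?_ (hK fun n k => e j (F n k).1)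
      have := Cardinal.mk_image_le_lift (f := st) (s := K fun n k => e j (F n k).1)
      simpa using this
    obtain ⟨i, hi⟩ := hbd (insert j Z) (by
      refine lt_of_le_of_lt Cardinal.mk_insert_le ?_
      exact Cardinal.add_lt_of_lt hI.reg.aleph0_le hZ (Cardinal.one_lt_aleph0.trans hI.unc))
    refine ⟨i, hi _ (Set.mem_insert _ _), fun F hF R hR => hi _ (Set.mem_insert_of_mem _ ?_)⟩
    exact Set.mem_iUnion.2 ⟨fun n k => ⟨F n k, hF n k⟩, R, hR, rfl⟩
  choose h hh1 hh2 using hsize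
  obtain ⟨δ, hδ, hUC, hcl⟩ := hclo h i0
  refine ⟨δ, hδ, hUC, ⟨?_, ?_⟩, ?_⟩
  · exact fun hmin => absurd hδ (not_lt.2 (hmin hδ.le))
  · intro j hj
    obtain ⟨k, hk, hk2⟩ := hUC {j} (Set.countable_singleton j) (by
      intro i hi
      rw [Set.mem_singleton_iff.1 hi]
      exact hj.lt)
    exact hj.2 (hk2 j rfl) hk
  · intro j hj F hF R hR
    exact hst R δ ((hh2 j F hF R hR).le.trans (hcl j hj).le)

end Pool.Agent.Lib.MP_6d445e_gt.H50
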