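import Pool.Agent.Lib.MP_6d445e_gt.Iface2

/-!
# Measurability of the values of names of functions
-/

universe u v w

open Cardinal Filter

namespace Pool.Agent.Lib.MP_6d445e_gt.H50

open Pool.Agent.Lib.MP_100a6c_lc
open Pool.Agent.Lib.MP_e6fef2_lc

section

variable {A : Type u} [CompleteBooleanAlgebra A]

/-- The value of a name of a function is measurable. -/
theorem meas_fv (F : ℕ → ℕ → A) (n : ℕ) : Measurable fun g : Ult A => fv F g n := by
  refine measurable_of_fibers fun k => ?_
  have h1 : {g : Ult A | fv F g n = k} =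
      ({g : Ult A | F n k ∈ g} ∩ ⋂ j, ⋂ _ : j < k, {g : Ult A | F n j ∈ g}ᶜ) ∪
        (if k = 0 then ⋂ j, {g : Ult A | F n j ∈ g}ᶜ else ∅) := by
    ext g
    simp only [Set.mem_ofPred_eq, Set.mem_union, Set.mem_inter_iff, Set.mem_iInter,
      Set.mem_compl_iff]
    unfold fv
    constructor
    · intro h
      by_cases hne : ({k | F n k ∈ g} : Set ℕ).Nonempty
      · left
        refine ⟨?_, fun j hj hj2 => ?_⟩
        · rw [← h]
          exact Nat.sInf_mem hne
        · rw [← h] at hj
          exact Nat.notMem_of_lt_sInf hj hj2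
      · right
        have h2 : ({k | F n k ∈ g} : Set ℕ) = ∅ := Set.not_nonempty_iff_eq_empty.1 hne
        rw [h2, Nat.sInf_empty] at h
        rw [if_pos h.symm]
        simp only [Set.mem_iInter, Set.mem_compl_iff, Set.mem_ofPred_eq]
        intro j hj
        exact hne ⟨j, hj⟩
    · rintro (⟨h, h'⟩ | h)
      · refine le_antisymm (Nat.sInf_le h) ?_
        by_contra hc
        push Not at hc
        exact h' _ hc (Nat.sInf_mem (s := {k | F n k ∈ g}) ⟨k, h⟩)
      · split_ifs at h with hk
        · simp only [Set.mem_iInter, Set.mem_compl_iff, Set.mem_ofPred_eq] at h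
          have h2 : ({k | F n k ∈ g} : Set ℕ) = ∅ := by
            ext j
            simpa using h j
          rw [h2, Nat.sInf_empty, hk]
        · exact absurd h (Set.notMem_empty _)
  rw [h1]
  refine MeasurableSet.union (MeasurableSet.inter (measurable_mem _ _)
    (MeasurableSet.iInter fun j => MeasurableSet.iInter fun _ => (measurable_mem _ _).compl)) ?_
  split_ifs
  · exact MeasurableSet.iInter fun j => (measurable_mem _ _).compl
  · exact MeasurableSet.empty

/-- Composition with a measurable function of several variables. -/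
theorem meas_fv2 (F : ℕ → ℕ → A) {n : Ult A → ℕ} (hn : Measurable n) :
    Measurable fun g : Ult A => fv F g (n g) := by
  have h1 : Measurable fun p : Ult A × ℕ => fv F p.1 p.2 :=
    measurable_from_prod_countable_left fun k => meas_fv F k
  exact h1.comp (measurable_id.prodMk hn)

theorem meas_sup {s : Finset ℕ} {F : ℕ → Ult A → ℕ} (h : ∀ k, Measurable (F k)) :
    Measurable fun g => s.sup fun k => F k g := by
  classical
  induction s using Finset.induction_on with
  | empty => simp
  | insert a s ha ih =>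
    simp only [Finset.sup_insert]
    have h1 : Measurable fun p : ℕ × ℕ => p.1 ⊔ p.2 := measurable_of_countable _
    exact h1.comp ((h a).prodMk ih)

theorem fv_eq {F : ℕ → ℕ → A} {g : Ult A} {n k : ℕ} (hF : ∀ j, F n j ∈ g ↔ k = j) :
    fv F g n = k := by
  unfold fv
  have : ({j | F n j ∈ g} : Set ℕ) = {k} := by
    ext j
    rw [Set.mem_ofPred_eq, hF j, Set.mem_singleton_iff, eq_comm]
  rw [this, csInf_singleton]

theorem fv_mem {F : ℕ → ℕ → A} {g : Ult A} {n : ℕ} (hF : ∃ k, F n k ∈ g) :
    F n (fv F g n) ∈ g := Nat.sInf_mem (s := {k | F n k ∈ g}) hF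

/-- A name of a measurable function. -/
theorem exists_fn {F : Ult A → ℕ → ℕ} (hF : ∀ n, Measurable fun g => F g n) :
    ∃ x : ℕ → ℕ → A, IsFN x ∧ ∀ᶠ g in ae A, ∀ n, fv x g n = F g n := by
  obtain ⟨x, hx⟩ := exists_fname (F := fun n g => F g n) fun n k =>
    (hF n) (measurableSet_singleton k)
  refine ⟨x, ?_, ?_⟩
  · filter_upwards [hx] with g hg n
    exact ⟨F g n, (hg n _).2 rfl, fun k hk => ((hg n k).1 hk).symm⟩
  · filter_upwards [hx] with g hg n
    exact fv_eq fun j => hg n j

variable {C : Type u} [CompleteBooleanAlgebra C] {e : A → C}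

/-- Transfer of measurable properties to a complete subalgebra. -/
theorem transfer (he : IsCE e) {Q : Ult A → Prop} (hQ : MeasurableSet {g | Q g}) {b : A}
    (h : ∀ᶠ h in ae C, e b ∈ h → Q (h.pull he)) : ∀ᶠ g in ae A, b ∈ g → Q g := by
  obtain ⟨q, hq⟩ := hQ
  have h1 : b ≤ q := by
    by_contra hcon
    have h2 : b ⊓ qᶜ ≠ ⊥ := by
      intro h2
      apply hcon
      rw [← compl_compl q, le_compl_iff_disjoint_right, disjoint_iff]
      exact h2
    have h3 : e (b ⊓ qᶜ) ≠ ⊥ := by
      intro h3
      apply h2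
      apply he.inj
      rw [h3, (all_alg A C e he).2.1]
    obtain ⟨g, hg1, hg2, hg3⟩ := exists_pull he hq h h3
    have hg4 : b ⊓ qᶜ ∈ g.pull he := hg1
    rw [Ult.mem_inf, Ult.mem_compl, hg3] at hg4
    exact hg4.2 (hg2 hg4.1)
  filter_upwards [hq] with g hg hb
  exact hg.1 (g.mono h1 hb)

theorem fv_pull (he : IsCE e) (F : ℕ → ℕ → A) (h : Ult C) (n : ℕ) :
    fv F (h.pull he) n = fv (fun n k => e (F n k)) h n := rfl

theorem isFN_pull (he : IsCE e) {F : ℕ → ℕ → A} (hF : IsFN F) : IsFN fun n k => e (F n k) :=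
  ae_pull he hF

end

end Pool.Agent.Lib.MP_6d445e_gt.H50
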