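import Pool.Agent.Lib.MP_6d445e_gt.H50.Tools

/-!
# XS1, XS2: an element of the group at stage `i`
-/

universe u v w

open Cardinal Filter

namespace Pool.Agent.Lib.MP_6d445e_gt.H50

open Pool.Agent.Lib.MP_100a6c_lc
open Pool.Agent.Lib.MP_e6fef2_lc

/-- A small disjoint refinement. -/
theorem small_refine {B : Type u} [CompleteBooleanAlgebra B] {I : Type u} {κ : Cardinal.{u}}
    (hI : #I = κ) (hK : KCA I B) {Λ : Type v} (P : Λ → B) :
    ∃ Y : Set B, #Y < κ ∧ (∀ y ∈ Y, ∃ x, y ≤ P x) ∧ ⨆ x, P x ≤ sSup Y := by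
  classical
  let S : Set (Set B) := {Y | (∀ y ∈ Y, y ≠ ⊥ ∧ ∃ x, y ≤ P x) ∧ Y.PairwiseDisjoint id}
  obtain ⟨Y, hY⟩ := zorn_subset S (by
    intro c hc hch
    refine ⟨⋃₀ c, ⟨?_, ?_⟩, fun s hs => Set.subset_sUnion_of_mem hs⟩
    · rintro y ⟨s, hs, hy⟩
      exact (hc hs).1 y hy
    · exact (Set.pairwiseDisjoint_sUnion hch.directedOn).2 fun s hs => (hc hs).2)
  refine ⟨Y, ?_, fun y hy => (hY.prop.1 y hy).2, ?_⟩
  · by_contra hcon
    push Not at hcon
    rw [← hI, Cardinal.le_def] at hcon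
    obtain ⟨φ⟩ := hcon
    obtain ⟨i, j, hij, h⟩ := hK (fun i => (φ i).1) fun i => (hY.prop.1 _ (φ i).2).1
    apply h
    have h1 : ((φ i).1 : B) ≠ (φ j).1 := fun h => hij (φ.injective (Subtype.ext h))
    exact disjoint_iff.1 (hY.prop.2 (φ i).2 (φ j).2 h1)
  · refine iSup_le fun x => ?_
    by_contra hcon
    have h1 : P x ⊓ (sSup Y)ᶜ ≠ ⊥ := by
      intro h2
      apply hcon
      rw [← compl_compl (sSup Y), le_compl_iff_disjoint_right, disjoint_iff]
      exact h2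
    have hdis : ∀ y ∈ Y, Disjoint y (P x ⊓ (sSup Y)ᶜ) := by
      intro y hy
      refine Disjoint.mono_right inf_le_right ?_
      exact disjoint_compl_right.mono_left (le_sSup hy)
    have h2 : insert (P x ⊓ (sSup Y)ᶜ) Y ∈ S := by
      refine ⟨?_, ?_⟩
      · rintro y (rfl | hy)
        · exact ⟨h1, x, inf_le_left⟩
        · exact hY.prop.1 y hy
      · refine hY.prop.2.insert fun y hy _ => (hdis y hy).symm
    have h3 : P x ⊓ (sSup Y)ᶜ ∈ Y := by
      have := hY.eq_of_subset h2 (Set.subset_insert _ _)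
      exact this.symm.subset (Set.mem_insert _ _)
    exact h1 (disjoint_self.1 (hdis _ h3))

theorem common (hR : RefStatement.{u}) {κ : Cardinal.{u}} {I : Type u} [LinearOrder I]
    [WellFoundedLT I] (hI : Idx κ I) {A : I → Type u} [∀ i, CompleteBooleanAlgebra (A i)]
    {f : ∀ i j, A i → A j} {ι : ∀ i, H1.RO Sw.{u} → A i} {B : Type u} [CompleteBooleanAlgebra B]
    {e : ∀ i, A i → B} (hM : ItM κ I A f ι B e) {Λ : Type v} {Γ : B} (D : GD B Λ)
    (P : (ℕ → ℕ → B) → Λ → B) (hP : ∀ F, IsFN F → Γ ≤ ⨆ x, P F x) (i0 : I) :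
    ∃ i, i0 < i ∧ UC i ∧ Order.IsSuccLimit i ∧ ∀ j < i, ∀ F : ℕ → ℕ → A j, IsFN F →
      ∀ a : A i, a ≠ ⊥ → e i a ≤ Γ → ∃ b, b ≠ ⊥ ∧ b ≤ a ∧ ∃ (x : Λ) (X X' : ℕ → ℕ → A i),
        (∀ n k, D.rel x n k = e i (X n k)) ∧ (∀ n k, D.rel (D.inv x) n k = e i (X' n k)) ∧
        e i b ≤ P (fun n k => e j (F n k)) x := by
  classical
  choose Y hY1 hY2 hY3 using fun F : ℕ → ℕ → B => small_refine hI.card hM.kc (P F)
  choose xx hxx using fun (F : ℕ → ℕ → B) (y : Y F) => hY2 F y.1 y.2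
  let K : (ℕ → ℕ → B) → Set (ℕ → ℕ → B) := fun F =>
    (Set.range (fun (y : Y F) (_ _ : ℕ) => y.1) ∪ Set.range fun y : Y F => D.rel (xx F y)) ∪
      Set.range fun y : Y F => D.rel (D.inv (xx F y))
  have hK : ∀ F, #(K F) < κ := by
    intro F
    refine lt_of_le_of_lt (Cardinal.mk_union_le _ _) ?_
    refine Cardinal.add_lt_of_lt hI.reg.aleph0_le ?_ (lt_of_le_of_lt Cardinal.mk_range_le (hY1 F))
    refine lt_of_le_of_lt (Cardinal.mk_union_le _ _) ?_
    exact Cardinal.add_lt_of_lt hI.reg.aleph0_le (lt_of_le_of_lt Cardinal.mk_range_le (hY1 F))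
      (lt_of_le_of_lt Cardinal.mk_range_le (hY1 F))
  obtain ⟨i, hi0, hUC, hlim, hi⟩ := hR κ I hI A f ι B e hM K hK i0
  refine ⟨i, hi0, hUC, hlim, fun j hj F hF a ha haΓ => ?_⟩
  have hce := hM.top.ce i
  have halg := all_alg _ _ _ hce
  set F' : ℕ → ℕ → B := fun n k => e j (F n k) with hF'
  have h1 : e i a ≤ sSup (Y F') :=
    haΓ.trans ((hP F' (isFN_pull (hM.top.ce j) hF)).trans (hY3 F'))
  -- some element of `Y F'` meets `e i a`
  have h2 : ∃ y ∈ Y F', e i a ⊓ y ≠ ⊥ := by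
    by_contra hcon
    push Not at hcon
    apply ha
    apply hce.inj
    rw [halg.2.1, ← inf_eq_left.2 h1, inf_sSup_eq]
    simp only [iSup_eq_bot]
    exact hcon
  obtain ⟨y, hy, hay⟩ := h2
  obtain ⟨b', hb'⟩ := hi j hj F (fun _ _ => y) (Or.inl (Or.inl ⟨⟨y, hy⟩, rfl⟩))
  obtain ⟨X, hX⟩ := hi j hj F (D.rel (xx F' ⟨y, hy⟩)) (Or.inl (Or.inr ⟨⟨y, hy⟩, rfl⟩))
  obtain ⟨X', hX'⟩ := hi j hj F (D.rel (D.inv (xx F' ⟨y, hy⟩))) (Or.inr ⟨⟨y, hy⟩, rfl⟩)
  have hb2 : y = e i (b' 0 0) := hb' 0 0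
  refine ⟨a ⊓ b' 0 0, ?_, inf_le_left, xx F' ⟨y, hy⟩, X, X', hX, hX', ?_⟩
  · intro h
    apply hay
    rw [hb2, ← halg.2.2.1, h, halg.2.1]
  · rw [halg.2.2.1, ← hb2]
    exact inf_le_right.trans (hxx F' ⟨y, hy⟩)

theorem meas_io {A : Type u} [CompleteBooleanAlgebra A] {Q : ℕ → Ult A → Prop}
    (h : ∀ n, MeasurableSet {g | Q n g}) :
    MeasurableSet {g : Ult A | ∀ m, ∃ n, m ≤ n ∧ Q n g} := by
  have h1 : {g : Ult A | ∀ m, ∃ n, m ≤ n ∧ Q n g} = ⋂ m : ℕ, ⋃ n, ⋃ _ : m ≤ n, {g | Q n g} := by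
    ext g
    simp
  rw [h1]
  exact MeasurableSet.iInter fun m => MeasurableSet.iUnion fun n =>
    MeasurableSet.iUnion fun _ => h n

theorem meas_mono {A : Type u} [CompleteBooleanAlgebra A] (X : ℕ → ℕ → A) :
    MeasurableSet {g : Ult A | Monotone (fv X g)} := by
  have h1 : {g : Ult A | Monotone (fv X g)} = ⋂ n, {g | fv X g n ≤ fv X g (n + 1)} := by
    ext g
    simp only [Set.mem_ofPred_eq, Set.mem_iInter]
    exact ⟨fun h n => h (Nat.le_succ n), fun h => monotone_nat_of_le_succ h⟩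
  rw [h1]
  exact MeasurableSet.iInter fun n => measurableSet_le (meas_fv _ _) (meas_fv _ _)

theorem mono_rel {B : Type u} [CompleteBooleanAlgebra B] {Λ : Type v} {Γ : B} {D : GD B Λ}
    (hD : GDP Γ D) (x : Λ) : ∀ᶠ h in ae B, Γ ∈ h → Monotone (fv (D.rel x) h) := by
  filter_upwards [hD.mono x, hD.tot x] with h h1 h2 hΓ
  refine monotone_nat_of_le_succ fun n => ?_
  refine Nat.sInf_le ?_
  exact h1 hΓ n _ (fv_mem (h2 hΓ (n + 1)))

/-- Almost every `g` is good for all names in `N`. -/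
theorem ae_names {A : Type u} [CompleteBooleanAlgebra A] {N : Set El.{u}} (hN : N.Countable)
    {p : (ℕ → ℕ → A) → Ult A → Prop} (h : ∀ H : ℕ → ℕ → A, In N H → ∀ᶠ g in ae A, p H g) :
    ∀ᶠ g in ae A, ∀ H : ℕ → ℕ → A, In N H → p H g := by
  let S : Set (ℕ → ℕ → A) := {H | In N H}
  have hS : S.Countable := by
    refine hN.preimage (f := fun H : ℕ → ℕ → A => (⟨ℕ → ℕ → A, H⟩ : El.{u})) ?_
    intro H H' hh
    simpa using hh
  have : Countable S := hS.to_subtype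
  have h1 : ∀ᶠ g in ae A, ∀ H : S, p H.1 g := ae_all fun H => h H.1 H.2
  filter_upwards [h1] with g hg H hH
  exact hg ⟨H, hH⟩

theorem xs1 (h1 : RefStatement.{u}) (h2 : DomStatement.{u}) : Xs1Statement.{u, v} := by
  intro κ I _ _ hI A _ f ι B _ e hM Λ Γ D hD hcas i0
  -- the condition and its value
  let cond : (ℕ → ℕ → B) → Λ → Ult B → Prop := fun F x h => ∀ m, ∃ n, m ≤ n ∧
    fv F h (Nat.pair n (fv (D.rel (D.inv x)) h (fv F h (Nat.pair n 0)))) < fv (D.rel x) h n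
  have hcond : ∀ (F : ℕ → ℕ → B) (x : Λ), MeasurableSet {h : Ult B | cond F x h} := by
    intro F x
    refine meas_io fun n => measurableSet_lt ?_ (meas_fv _ _)
    refine meas_fv2 F ?_
    have hp : Measurable fun k : ℕ => Nat.pair n k := measurable_of_countable _
    exact hp.comp (meas_fv2 _ (meas_fv _ _))
  choose P hP using hcond
  have hsup : ∀ F, IsFN F → Γ ≤ ⨆ x, P F x := by
    intro F hF
    by_contra hcon
    have h3 : Γ ⊓ (⨆ x, P F x)ᶜ ≠ ⊥ := by
      intro h2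
      apply hcon
      rw [← compl_compl (⨆ x, P F x), le_compl_iff_disjoint_right, disjoint_iff]
      exact h2
    obtain ⟨b, hb, hba, x, hbx⟩ := hcas F hF _ h3 inf_le_left
    have h4 : b ≤ P F x := by
      refine le_of_ae ?_
      filter_upwards [hbx, hP F x] with h h5 h6 h7
      exact h6.2 (h5 h7)
    apply hb
    refine le_bot_iff.1 ?_
    calc b ≤ (⨆ x, P F x) ⊓ (⨆ x, P F x)ᶜ :=
          le_inf (h4.trans (le_iSup _ _)) (hba.trans inf_le_right)
      _ = ⊥ := inf_compl_eq_bot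
  obtain ⟨i, hi0, hUC, hlim, hi⟩ := common h1 hI hM D P hsup i0
  refine ⟨i, hi0, hUC, ?_⟩
  obtain ⟨-, hctbl, -, -, -, hfun, -⟩ := all_club.{u}
  have hev := hfun (ℕ → ℕ → A i) (ℕ → ℕ → A i) fun ψ m k => ψ m.unpair.1 k
  filter_upwards [h2 I A f hM.ch i hUC (hM.dp i hlim), hctbl, hev] with N hdom hN hev
  obtain ⟨j, hj, F, hF, hdom⟩ := hdom
  intro a ha hgen haΓ
  obtain ⟨b, hb, hba, x, X, X', hX, hX', hbP⟩ := hi j hj F hF a ha haΓ
  refine ⟨b, hb, hba, x, X, X', hX, hX', ?_⟩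
  have hce := hM.top.ce i
  have hgb : b ≤ gen (A i) N := hba.trans hgen
  have hX1 : (fun n k => e i (X n k)) = D.rel x := by
    funext n k; exact (hX n k).symm
  have hX2 : (fun n k => e i (X' n k)) = D.rel (D.inv x) := by
    funext n k; exact (hX' n k).symm
  have hF1 : (fun n k => e i (f j i (F n k))) = fun n k => e j (F n k) := by
    funext n k; exact hM.top.comp _ _ hj.le _
  -- transfer of the condition
  have ht1 : ∀ᶠ g in ae (A i), b ∈ g → ∀ m, ∃ n, m ≤ n ∧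
      fv (fun n k => f j i (F n k)) g (Nat.pair n (fv X' g
        (fv (fun n k => f j i (F n k)) g (Nat.pair n 0)))) < fv X g n := by
    refine transfer hce ?_ ?_
    · refine meas_io fun n => measurableSet_lt ?_ (meas_fv _ _)
      refine meas_fv2 _ ?_
      have hp : Measurable fun k : ℕ => Nat.pair n k := measurable_of_countable _
      exact hp.comp (meas_fv2 _ (meas_fv _ _))
    · filter_upwards [hP (fun n k => e j (F n k)) x] with h h3 h4
      have h5 := h3.1 (h.mono hbP h4)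
      simp only [fv_pull, hX1, hX2, hF1]
      exact h5
  have ht2 : ∀ᶠ g in ae (A i), b ∈ g → Monotone (fv X' g) := by
    refine transfer hce (meas_mono X') ?_
    filter_upwards [mono_rel hD (D.inv x)] with h h3 h4
    have h5 : Γ ∈ h := h.mono (((all_alg _ _ _ hce).2.2.2.2.1 _ _).2 hba |>.trans haΓ) h4
    have h6 := h3 h5
    rw [← hX2] at h6
    exact h6
  have ht3 : ∀ᶠ g in ae (A i), ∀ H : ℕ → ℕ → A i, In N H → (IsFN H → gen (A i) N ∈ g →
      ∃ m, ∀ n, m ≤ n → ∀ k, ∀ k' ≤ k,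
        fv H g (Nat.pair n k') ≤ fv (fun n k => f j i (F n k)) g (Nat.pair n k)) := by
    refine ae_names hN fun H hH => ?_
    by_cases hF : IsFN H
    · filter_upwards [hdom H hH hF] with g hg _
      exact hg
    · exact Filter.Eventually.of_forall fun g h => absurd h hF
  filter_upwards [ht1, ht2, ht3] with g h3 h4 h5 hbg Ψ ψ hΨ hψ hΨF hψF m
  have hg : gen (A i) N ∈ g := g.mono hgb hbg
  obtain ⟨m1, hm1⟩ := h5 Ψ hΨ hΨF hg
  have hψ2 : IsFN fun m k => ψ m.unpair.1 k := hψF.mono fun g hg n => hg _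
  obtain ⟨m2, hm2⟩ := h5 _ (hev ψ hψ) hψ2 hg
  obtain ⟨n, hn, hlt⟩ := h3 hbg (max m (max m1 m2))
  refine ⟨n, (le_max_left _ _).trans hn, ?_⟩
  have h6 : fv ψ g n ≤ fv (fun n k => f j i (F n k)) g (Nat.pair n 0) := by
    have h7 := hm2 n (((le_max_right _ _).trans (le_max_right _ _)).trans hn) 0 0 le_rfl
    have h8 : fv (fun m k => ψ m.unpair.1 k) g (Nat.pair n 0) = fv ψ g n := by
      unfold fv
      simp
    rw [h8] at h7
    exact h7
  exact lt_of_le_of_lt (hm1 n (((le_max_left _ _).trans (le_max_right _ _)).trans hn) _ _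
    (h4 hbg h6)) hlt

theorem xs2 (h1 : RefStatement.{u}) (h2 : DomStatement.{u}) : Xs2Statement.{u, v} := by
  intro κ I _ _ hI A _ f ι B _ e hM Λ Γ D hD i0
  -- the condition and its value
  let cond : (ℕ → ℕ → B) → Λ → Ult B → Prop := fun F x h => ∀ m, ∃ n, m ≤ n ∧
    fv F h (Nat.pair n 0) < fv (D.rel x) h n
  have hcond : ∀ (F : ℕ → ℕ → B) (x : Λ), MeasurableSet {h : Ult B | cond F x h} := by
    intro F x
    exact meas_io fun n => measurableSet_lt (meas_fv _ _) (meas_fv _ _)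
  choose P hP using hcond
  have hsup : ∀ F, IsFN F → Γ ≤ ⨆ x, P F x := by
    intro F hF
    by_contra hcon
    have h3 : Γ ⊓ (⨆ x, P F x)ᶜ ≠ ⊥ := by
      intro h2
      apply hcon
      rw [← compl_compl (⨆ x, P F x), le_compl_iff_disjoint_right, disjoint_iff]
      exact h2
    obtain ⟨F1, hF1, hF2⟩ := exists_fn (A := B) (F := fun g n => fv F g (Nat.pair n 0) + 1)
      fun n => (meas_fv F (Nat.pair n 0)).add_const 1
    obtain ⟨b, hb, hba, E, hE⟩ := hD.fd F1 hF1 _ h3 inf_le_left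
    have h4 : b ≤ ⨆ x, P F x := by
      refine le_of_ae ?_
      have hPE : ∀ᶠ h in ae B, ∀ x : E, P F x ∈ h ↔ cond F x h := ae_all fun x => hP F x
      filter_upwards [hE, hF2, hPE] with h h5 h6 h7 h8
      have h9 := h5 h8
      choose x hx hx2 using h9
      -- pigeonhole
      obtain ⟨y, hy⟩ := Finite.exists_infinite_fiber (fun n : ℕ => (⟨x n, hx n⟩ : E))
      have h10 : cond F y h := by
        intro m
        have hinf : ((fun n : ℕ => (⟨x n, hx n⟩ : E)) ⁻¹' {y}).Infinite :=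
          Set.infinite_coe_iff.1 hy
        obtain ⟨n, hn, hmn⟩ := hinf.exists_gt m
        refine ⟨n, hmn.le, ?_⟩
        have h11 : x n = y := congrArg Subtype.val (show (⟨x n, hx n⟩ : E) = y from hn)
        have h12 := hx2 n
        rw [h6 n, h11] at h12
        omega
      exact h.mono (le_iSup (P F) y) ((h7 y).2 h10)
    apply hb
    refine le_bot_iff.1 ?_
    calc b ≤ (⨆ x, P F x) ⊓ (⨆ x, P F x)ᶜ := le_inf h4 (hba.trans inf_le_right)
      _ = ⊥ := inf_compl_eq_bot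
  obtain ⟨i, hi0, hUC, hlim, hi⟩ := common h1 hI hM D P hsup i0
  refine ⟨i, hi0, hUC, ?_⟩
  obtain ⟨-, hctbl, -, -, -, hfun, -⟩ := all_club.{u}
  have hev := hfun (ℕ → ℕ → A i) (ℕ → ℕ → A i) fun ψ m k => ψ m.unpair.1 k
  filter_upwards [h2 I A f hM.ch i hUC (hM.dp i hlim), hctbl, hev] with N hdom hN hev
  obtain ⟨j, hj, F, hF, hdom⟩ := hdom
  intro a ha hgen haΓ
  obtain ⟨b, hb, hba, x, X, X', hX, hX', hbP⟩ := hi j hj F hF a ha haΓ
  refine ⟨b, hb, hba, x, X, X', hX, hX', ?_⟩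
  have hce := hM.top.ce i
  have hgb : b ≤ gen (A i) N := hba.trans hgen
  have hX1 : (fun n k => e i (X n k)) = D.rel x := by
    funext n k; exact (hX n k).symm
  have hF1 : (fun n k => e i (f j i (F n k))) = fun n k => e j (F n k) := by
    funext n k; exact hM.top.comp _ _ hj.le _
  -- transfer of the condition
  have ht1 : ∀ᶠ g in ae (A i), b ∈ g → ∀ m, ∃ n, m ≤ n ∧
      fv (fun n k => f j i (F n k)) g (Nat.pair n 0) < fv X g n := by
    refine transfer hce (meas_io fun n => measurableSet_lt (meas_fv _ _) (meas_fv _ _)) ?_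
    filter_upwards [hP (fun n k => e j (F n k)) x] with h h3 h4
    have h5 := h3.1 (h.mono hbP h4)
    simp only [fv_pull, hX1, hF1]
    exact h5
  have ht3 : ∀ᶠ g in ae (A i), ∀ H : ℕ → ℕ → A i, In N H → (IsFN H → gen (A i) N ∈ g →
      ∃ m, ∀ n, m ≤ n → ∀ k, ∀ k' ≤ k,
        fv H g (Nat.pair n k') ≤ fv (fun n k => f j i (F n k)) g (Nat.pair n k)) := by
    refine ae_names hN fun H hH => ?_
    by_cases hF : IsFN H
    · filter_upwards [hdom H hH hF] with g hg _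
      exact hg
    · exact Filter.Eventually.of_forall fun g h => absurd h hF
  filter_upwards [ht1, ht3] with g h3 h5 hbg H hH hHF m
  have hg : gen (A i) N ∈ g := g.mono hgb hbg
  have hH2 : IsFN fun m k => H m.unpair.1 k := hHF.mono fun g hg n => hg _
  obtain ⟨m2, hm2⟩ := h5 _ (hev H hH) hH2 hg
  obtain ⟨n, hn, hlt⟩ := h3 hbg (max m m2)
  refine ⟨n, (le_max_left _ _).trans hn, lt_of_le_of_lt ?_ hlt⟩
  have h7 := hm2 n ((le_max_right _ _).trans hn) 0 0 le_rfl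
  have h8 : fv (fun m k => H m.unpair.1 k) g (Nat.pair n 0) = fv H g n := by
    unfold fv
    simp
  rw [h8] at h7
  exact h7

end Pool.Agent.Lib.MP_6d445e_gt.H50
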