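import Pool.Agent.Lib.MP_6d445e_gt.H50.Xs
import Pool.Agent.Lib.MP_6d445e_gt.W.Iface4

/-!
# XSW1, XSW2: an element of the group at stage `i`
-/

universe u v w

open Cardinal Filter

namespace Pool.Agent.Lib.MP_6d445e_gt.H50

open Pool.Agent.Lib.MP_100a6c_lc
open Pool.Agent.Lib.MP_c5d73d_lc.F (pr)
open Pool.Agent.Lib.MP_e6fef2_lc

theorem commonW (hR : RefwStatement.{u}) {κ : Cardinal.{u}} {I : Type u} [LinearOrder I]
    [WellFoundedLT I] (hI : Idw κ I) {A : I → Type u} [∀ i, CompleteBooleanAlgebra (A i)]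
    {f : ∀ i j, A i → A j} {ι : ∀ i, H1.RO Sw.{u} → A i} {M : ∀ i, Set (A i)} {B : Type u} [CompleteBooleanAlgebra B]
    {e : ∀ i, A i → B} (hM : ItW κ I A f ι M B e) {Λ : Type v} {Γ : B} (D : GD B Λ)
    (P : (ℕ → ℕ → B) → Λ → B) (hP : ∀ F, IsFN F → Γ ≤ ⨆ x, P F x) (i0 : I) :
    ∃ i, i0 < i ∧ UC i ∧ Order.IsSuccLimit i ∧ ∀ j < i, ∀ F : ℕ → ℕ → A j, IsFN F →
      (∀ n k, F n k ∈ M j) → ∀ a : A i, a ≠ ⊥ → e i a ≤ Γ → ∃ b, b ≠ ⊥ ∧ b ≤ a ∧ ∃ (x : Λ) (X X' : ℕ → ℕ → A i),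
        (∀ n k, D.rel x n k = e i (X n k)) ∧ (∀ n k, D.rel (D.inv x) n k = e i (X' n k)) ∧
        e i b ≤ P (fun n k => e j (F n k)) x := by
  classical
  choose Y hY1 hY2 hY3 using fun F : ℕ → ℕ → B => small_refine hI.card hM.kc (P F)
  choose xx hxx using fun (F : ℕ → ℕ → B) (y : Y F) => hY2 F y.1 y.2
  let K : (ℕ → ℕ → B) → Set (ℕ → ℕ → B) := fun F =>
    (Set.range (fun (y : Y F) (_ _ : ℕ) => y.1) ∪ Set.range fun y : Y F => D.rel (xx F y)) ∪
      Set.range fun y : Y F => D.rel (D.inv (xx F y))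
  have hK : ∀ F, #(K F) < κ := by
    intro F
    refine lt_of_le_of_lt (Cardinal.mk_union_le _ _) ?_
    refine Cardinal.add_lt_of_lt hI.reg.aleph0_le ?_ (lt_of_le_of_lt Cardinal.mk_range_le (hY1 F))
    refine lt_of_le_of_lt (Cardinal.mk_union_le _ _) ?_
    exact Cardinal.add_lt_of_lt hI.reg.aleph0_le (lt_of_le_of_lt Cardinal.mk_range_le (hY1 F))
      (lt_of_le_of_lt Cardinal.mk_range_le (hY1 F))
  obtain ⟨i, hi0, hUC, hlim, hi⟩ := hR κ I hI A f ι M B e hM K hK i0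
  refine ⟨i, hi0, hUC, hlim, fun j hj F hF hFM a ha haΓ => ?_⟩
  have hce := hM.top.ce i
  have halg := all_alg _ _ _ hce
  set F' : ℕ → ℕ → B := fun n k => e j (F n k) with hF'
  have h1 : e i a ≤ sSup (Y F') :=
    haΓ.trans ((hP F' (isFN_pull (hM.top.ce j) hF)).trans (hY3 F'))
  -- some element of `Y F'` meets `e i a`
  have h2 : ∃ y ∈ Y F', e i a ⊓ y ≠ ⊥ := by
    by_contra hcon
    push Not at hcon
    apply ha
    apply hce.inj
    rw [halg.2.1, ← inf_eq_left.2 h1, inf_sSup_eq]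
    simp only [iSup_eq_bot]
    exact hcon
  obtain ⟨y, hy, hay⟩ := h2
  obtain ⟨b', hb'⟩ := hi j hj F hFM (fun _ _ => y) (Or.inl (Or.inl ⟨⟨y, hy⟩, rfl⟩))
  obtain ⟨X, hX⟩ := hi j hj F hFM (D.rel (xx F' ⟨y, hy⟩)) (Or.inl (Or.inr ⟨⟨y, hy⟩, rfl⟩))
  obtain ⟨X', hX'⟩ := hi j hj F hFM (D.rel (D.inv (xx F' ⟨y, hy⟩))) (Or.inr ⟨⟨y, hy⟩, rfl⟩)
  have hb2 : y = e i (b' 0 0) := hb' 0 0
  refine ⟨a ⊓ b' 0 0, ?_, inf_le_left, xx F' ⟨y, hy⟩, X, X', hX, hX', ?_⟩
  · intro h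
    apply hay
    rw [hb2, ← halg.2.2.1, h, halg.2.1]
  · rw [halg.2.2.1, ← hb2]
    exact inf_le_right.trans (hxx F' ⟨y, hy⟩)

theorem xsw1 (h1 : RefwStatement.{u}) (h2 : DomwStatement.{u}) : Xsw1Statement.{u, v} := by
  intro κ I _ _ hI A _ f ι M B _ e hM Λ Γ D hD hcas i0
  -- the condition and its value
  let cond : (ℕ → ℕ → B) → Λ → Ult B → Prop := fun F x h => ∀ m, ∃ n, m ≤ n ∧
    fv F h (Nat.pair n (fv (D.rel (D.inv x)) h (fv F h (Nat.pair n 0)))) < fv (D.rel x) h n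
  have hcond : ∀ (F : ℕ → ℕ → B) (x : Λ), MeasurableSet {h : Ult B | cond F x h} := by
    intro F x
    refine meas_io fun n => measurableSet_lt ?_ (meas_fv _ _)
    refine meas_fv2 F ?_
    have hp : Measurable fun k : ℕ => Nat.pair n k := measurable_of_countable _
    exact hp.comp (meas_fv2 _ (meas_fv _ _))
  choose P hP using hcond
  have hsup : ∀ F, IsFN F → Γ ≤ ⨆ x, P F x := by
    intro F hF
    by_contra hcon
    have h3 : Γ ⊓ (⨆ x, P F x)ᶜ ≠ ⊥ := by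
      intro h2
      apply hcon
      rw [← compl_compl (⨆ x, P F x), le_compl_iff_disjoint_right, disjoint_iff]
      exact h2
    obtain ⟨b, hb, hba, x, hbx⟩ := hcas F hF _ h3 inf_le_left
    have h4 : b ≤ P F x := by
      refine le_of_ae ?_
      filter_upwards [hbx, hP F x] with h h5 h6 h7
      exact h6.2 (h5 h7)
    apply hb
    refine le_bot_iff.1 ?_
    calc b ≤ (⨆ x, P F x) ⊓ (⨆ x, P F x)ᶜ :=
          le_inf (h4.trans (le_iSup _ _)) (hba.trans inf_le_right)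
      _ = ⊥ := inf_compl_eq_bot
  obtain ⟨i, hi0, hUC, hlim, hi⟩ := commonW h1 hI hM D P hsup i0
  refine ⟨i, hi0, hUC, ?_⟩
  obtain ⟨-, hctbl, -, -, -, hfun, -⟩ := all_club.{u}
  have hev := hfun (ℕ → ℕ → A i) (ℕ → ℕ → A i) fun ψ m k => ψ m.unpair.1 k
  filter_upwards [h2 κ I A f ι M hM.good i hUC hlim, hctbl, hev] with N hdom hN hev
  intro s hs
  obtain ⟨j, hj, F, hF, hFM, hdom⟩ := hdom s hs
  intro a ha hgen haΓ
  obtain ⟨b, hb, hba, x, X, X', hX, hX', hbP⟩ := hi j hj F hF hFM a ha haΓ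
  refine ⟨b, hb, hba, x, X, X', hX, hX', ?_⟩
  have hce := hM.top.ce i
  have hgb : b ≤ ι i (pr s) ⊓ gen (A i) N := hba.trans hgen
  have hX1 : (fun n k => e i (X n k)) = D.rel x := by
    funext n k; exact (hX n k).symm
  have hX2 : (fun n k => e i (X' n k)) = D.rel (D.inv x) := by
    funext n k; exact (hX' n k).symm
  have hF1 : (fun n k => e i (f j i (F n k))) = fun n k => e j (F n k) := by
    funext n k; exact hM.top.comp _ _ hj.le _
  -- transfer of the condition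
  have ht1 : ∀ᶠ g in ae (A i), b ∈ g → ∀ m, ∃ n, m ≤ n ∧
      fv (fun n k => f j i (F n k)) g (Nat.pair n (fv X' g
        (fv (fun n k => f j i (F n k)) g (Nat.pair n 0)))) < fv X g n := by
    refine transfer hce ?_ ?_
    · refine meas_io fun n => measurableSet_lt ?_ (meas_fv _ _)
      refine meas_fv2 _ ?_
      have hp : Measurable fun k : ℕ => Nat.pair n k := measurable_of_countable _
      exact hp.comp (meas_fv2 _ (meas_fv _ _))
    · filter_upwards [hP (fun n k => e j (F n k)) x] with h h3 h4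
      have h5 := h3.1 (h.mono hbP h4)
      simp only [fv_pull, hX1, hX2, hF1]
      exact h5
  have ht2 : ∀ᶠ g in ae (A i), b ∈ g → Monotone (fv X' g) := by
    refine transfer hce (meas_mono X') ?_
    filter_upwards [mono_rel hD (D.inv x)] with h h3 h4
    have h5 : Γ ∈ h := h.mono (((all_alg _ _ _ hce).2.2.2.2.1 _ _).2 hba |>.trans haΓ) h4
    have h6 := h3 h5
    rw [← hX2] at h6
    exact h6
  have ht3 : ∀ᶠ g in ae (A i), ∀ H : ℕ → ℕ → A i, In N H → (IsFN H → ι i (pr s) ⊓ gen (A i) N ∈ g →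
      ∃ m, ∀ n, m ≤ n → ∀ k, ∀ k' ≤ k,
        fv H g (Nat.pair n k') ≤ fv (fun n k => f j i (F n k)) g (Nat.pair n k)) := by
    refine ae_names hN fun H hH => ?_
    by_cases hF : IsFN H
    · filter_upwards [hdom H hH hF] with g hg _ h3
      exact hg (g.mem_inf.1 h3).1 (g.mem_inf.1 h3).2
    · exact Filter.Eventually.of_forall fun g h => absurd h hF
  filter_upwards [ht1, ht2, ht3] with g h3 h4 h5 hbg Ψ ψ hΨ hψ hΨF hψF m
  have hg : ι i (pr s) ⊓ gen (A i) N ∈ g := g.mono hgb hbg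
  obtain ⟨m1, hm1⟩ := h5 Ψ hΨ hΨF hg
  have hψ2 : IsFN fun m k => ψ m.unpair.1 k := hψF.mono fun g hg n => hg _
  obtain ⟨m2, hm2⟩ := h5 _ (hev ψ hψ) hψ2 hg
  obtain ⟨n, hn, hlt⟩ := h3 hbg (max m (max m1 m2))
  refine ⟨n, (le_max_left _ _).trans hn, ?_⟩
  have h6 : fv ψ g n ≤ fv (fun n k => f j i (F n k)) g (Nat.pair n 0) := by
    have h7 := hm2 n (((le_max_right _ _).trans (le_max_right _ _)).trans hn) 0 0 le_rfl
    have h8 : fv (fun m k => ψ m.unpair.1 k) g (Nat.pair n 0) = fv ψ g n := by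
      unfold fv
      simp
    rw [h8] at h7
    exact h7
  exact lt_of_le_of_lt (hm1 n (((le_max_left _ _).trans (le_max_right _ _)).trans hn) _ _
    (h4 hbg h6)) hlt

theorem xsw2 (h1 : RefwStatement.{u}) (h2 : DomwStatement.{u}) : Xsw2Statement.{u, v} := by
  intro κ I _ _ hI A _ f ι M B _ e hM Λ Γ D hD i0
  -- the condition and its value
  let cond : (ℕ → ℕ → B) → Λ → Ult B → Prop := fun F x h => ∀ m, ∃ n, m ≤ n ∧
    fv F h (Nat.pair n 0) < fv (D.rel x) h n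
  have hcond : ∀ (F : ℕ → ℕ → B) (x : Λ), MeasurableSet {h : Ult B | cond F x h} := by
    intro F x
    exact meas_io fun n => measurableSet_lt (meas_fv _ _) (meas_fv _ _)
  choose P hP using hcond
  have hsup : ∀ F, IsFN F → Γ ≤ ⨆ x, P F x := by
    intro F hF
    by_contra hcon
    have h3 : Γ ⊓ (⨆ x, P F x)ᶜ ≠ ⊥ := by
      intro h2
      apply hcon
      rw [← compl_compl (⨆ x, P F x), le_compl_iff_disjoint_right, disjoint_iff]
      exact h2
    obtain ⟨F1, hF1, hF2⟩ := exists_fn (A := B) (F := fun g n => fv F g (Nat.pair n 0) + 1)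
      fun n => (meas_fv F (Nat.pair n 0)).add_const 1
    obtain ⟨b, hb, hba, E, hE⟩ := hD.fd F1 hF1 _ h3 inf_le_left
    have h4 : b ≤ ⨆ x, P F x := by
      refine le_of_ae ?_
      have hPE : ∀ᶠ h in ae B, ∀ x : E, P F x ∈ h ↔ cond F x h := ae_all fun x => hP F x
      filter_upwards [hE, hF2, hPE] with h h5 h6 h7 h8
      have h9 := h5 h8
      choose x hx hx2 using h9
      -- pigeonhole
      obtain ⟨y, hy⟩ := Finite.exists_infinite_fiber (fun n : ℕ => (⟨x n, hx n⟩ : E))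
      have h10 : cond F y h := by
        intro m
        have hinf : ((fun n : ℕ => (⟨x n, hx n⟩ : E)) ⁻¹' {y}).Infinite :=
          Set.infinite_coe_iff.1 hy
        obtain ⟨n, hn, hmn⟩ := hinf.exists_gt m
        refine ⟨n, hmn.le, ?_⟩
        have h11 : x n = y := congrArg Subtype.val (show (⟨x n, hx n⟩ : E) = y from hn)
        have h12 := hx2 n
        rw [h6 n, h11] at h12
        omega
      exact h.mono (le_iSup (P F) y) ((h7 y).2 h10)
    apply hb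
    refine le_bot_iff.1 ?_
    calc b ≤ (⨆ x, P F x) ⊓ (⨆ x, P F x)ᶜ := le_inf h4 (hba.trans inf_le_right)
      _ = ⊥ := inf_compl_eq_bot
  obtain ⟨i, hi0, hUC, hlim, hi⟩ := commonW h1 hI hM D P hsup i0
  refine ⟨i, hi0, hUC, ?_⟩
  obtain ⟨-, hctbl, -, -, -, hfun, -⟩ := all_club.{u}
  have hev := hfun (ℕ → ℕ → A i) (ℕ → ℕ → A i) fun ψ m k => ψ m.unpair.1 k
  filter_upwards [h2 κ I A f ι M hM.good i hUC hlim, hctbl, hev] with N hdom hN hev
  intro s hs
  obtain ⟨j, hj, F, hF, hFM, hdom⟩ := hdom s hs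
  intro a ha hgen haΓ
  obtain ⟨b, hb, hba, x, X, X', hX, hX', hbP⟩ := hi j hj F hF hFM a ha haΓ
  refine ⟨b, hb, hba, x, X, X', hX, hX', ?_⟩
  have hce := hM.top.ce i
  have hgb : b ≤ ι i (pr s) ⊓ gen (A i) N := hba.trans hgen
  have hX1 : (fun n k => e i (X n k)) = D.rel x := by
    funext n k; exact (hX n k).symm
  have hF1 : (fun n k => e i (f j i (F n k))) = fun n k => e j (F n k) := by
    funext n k; exact hM.top.comp _ _ hj.le _
  -- transfer of the condition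
  have ht1 : ∀ᶠ g in ae (A i), b ∈ g → ∀ m, ∃ n, m ≤ n ∧
      fv (fun n k => f j i (F n k)) g (Nat.pair n 0) < fv X g n := by
    refine transfer hce (meas_io fun n => measurableSet_lt (meas_fv _ _) (meas_fv _ _)) ?_
    filter_upwards [hP (fun n k => e j (F n k)) x] with h h3 h4
    have h5 := h3.1 (h.mono hbP h4)
    simp only [fv_pull, hX1, hF1]
    exact h5
  have ht3 : ∀ᶠ g in ae (A i), ∀ H : ℕ → ℕ → A i, In N H → (IsFN H → ι i (pr s) ⊓ gen (A i) N ∈ g →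
      ∃ m, ∀ n, m ≤ n → ∀ k, ∀ k' ≤ k,
        fv H g (Nat.pair n k') ≤ fv (fun n k => f j i (F n k)) g (Nat.pair n k)) := by
    refine ae_names hN fun H hH => ?_
    by_cases hF : IsFN H
    · filter_upwards [hdom H hH hF] with g hg _ h3
      exact hg (g.mem_inf.1 h3).1 (g.mem_inf.1 h3).2
    · exact Filter.Eventually.of_forall fun g h => absurd h hF
  filter_upwards [ht1, ht3] with g h3 h5 hbg H hH hHF m
  have hg : ι i (pr s) ⊓ gen (A i) N ∈ g := g.mono hgb hbg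
  have hH2 : IsFN fun m k => H m.unpair.1 k := hHF.mono fun g hg n => hg _
  obtain ⟨m2, hm2⟩ := h5 _ (hev H hH) hH2 hg
  obtain ⟨n, hn, hlt⟩ := h3 hbg (max m m2)
  refine ⟨n, (le_max_left _ _).trans hn, lt_of_le_of_lt ?_ hlt⟩
  have h7 := hm2 n ((le_max_right _ _).trans hn) 0 0 le_rfl
  have h8 : fv (fun m k => H m.unpair.1 k) g (Nat.pair n 0) = fv H g n := by
    unfold fv
    simp
  rw [h8] at h7
  exact h7

end Pool.Agent.Lib.MP_6d445e_gt.H50
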